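import Pool.Agent.Helper66_DE.Statements

/-!
# CONN and ANN: connections on projective modules
-/

noncomputable section

namespace Pool.Agent.H66DE

namespace Conn19

section

variable {N : Type} [AddCommGroup N] [Module S N]

theorem mapRange_smul (D : Derivation ℂ S S) (s : S) (f : N →₀ S) :
    Finsupp.linearCombination S (id : N → N)
        (Finsupp.mapRange.addMonoidHom (D.toLinearMap.toAddMonoidHom) (s • f)) =
      D s • Finsupp.linearCombination S id f +
        s • Finsupp.linearCombination S id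
          (Finsupp.mapRange.addMonoidHom (D.toLinearMap.toAddMonoidHom) f) := by
  induction f using Finsupp.induction_linear with
  | zero => simp
  | add f g hf hg =>
    rw [smul_add, map_add, map_add, hf, hg, map_add, map_add, map_add, smul_add, smul_add]
    abel
  | single n t =>
    simp only [Finsupp.smul_single, Finsupp.mapRange.addMonoidHom_apply, Finsupp.mapRange_single,
      Finsupp.linearCombination_single, id, smul_eq_mul]
    have h : (D.toLinearMap.toAddMonoidHom) (s * t) = s * D t + t * D s := D.leibniz s t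
    have h' : (D.toLinearMap.toAddMonoidHom) t = D t := rfl
    rw [h, h', add_smul, mul_smul, mul_comm t, mul_smul, add_comm]

end

end Conn19

/-- CONN: connections on projective modules -/
theorem conn : ConnStatement := by
  intro N _ _ _ D
  obtain ⟨i, hi⟩ := (Module.projective_def' (R := S) (P := N)).1 inferInstance
  have hi' : ∀ n, Finsupp.linearCombination S (id : N → N) (i n) = n := fun n =>
    DFunLike.congr_fun hi n
  refine ⟨(Finsupp.linearCombination S id).toAddMonoidHom.comp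
    ((Finsupp.mapRange.addMonoidHom (D.toLinearMap.toAddMonoidHom)).comp i.toAddMonoidHom), ?_⟩
  intro s n
  have h1 := Conn19.mapRange_smul D s (i n)
  rw [hi', ← map_smul] at h1
  exact h1

/-- the derivation of the endomorphism ring given by a connection -/
def del {N : Type} [AddCommGroup N] [Module S N] (D : Derivation ℂ S S) (δ : N →+ N)
    (hδ : ∀ (s : S) (n : N), δ (s • n) = D s • n + s • δ n) (h : Module.End S N) :
    Module.End S N where
  toFun n := δ (h n) - h (δ n)
  map_add' a b := by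
    rw [map_add, map_add, map_add, map_add]
    abel
  map_smul' s n := by
    rw [map_smul, hδ, hδ, map_add, map_smul, map_smul, RingHom.id_apply, smul_sub]
    abel

theorem del_mul {N : Type} [AddCommGroup N] [Module S N] (D : Derivation ℂ S S) (δ : N →+ N)
    (hδ : ∀ (s : S) (n : N), δ (s • n) = D s • n + s • δ n) (h k : Module.End S N) :
    del D δ hδ (h * k) = del D δ hδ h * k + h * del D δ hδ k := by
  ext n
  change δ (h (k n)) - h (k (δ n)) = (δ (h (k n)) - h (δ (k n))) + h (δ (k n) - k (δ n))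
  rw [map_sub]
  abel

theorem del_algebraMap {N : Type} [AddCommGroup N] [Module S N] (D : Derivation ℂ S S)
    (δ : N →+ N) (hδ : ∀ (s : S) (n : N), δ (s • n) = D s • n + s • δ n) (s : S) :
    del D δ hδ (algebraMap S (Module.End S N) s) = algebraMap S (Module.End S N) (D s) := by
  ext n
  change δ (s • n) - s • δ n = D s • n
  rw [hδ]
  abel

theorem del_neg {N : Type} [AddCommGroup N] [Module S N] (D : Derivation ℂ S S)
    (δ : N →+ N) (hδ : ∀ (s : S) (n : N), δ (s • n) = D s • n + s • δ n) (h : Module.End S N) :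
    del D δ hδ (-h) = - del D δ hδ h := by
  ext n
  change δ (-(h n)) - -(h (δ n)) = -(δ (h n) - h (δ n))
  rw [map_neg]
  abel

/-- the derivative of `φ ^ 4` -/
theorem del_pow4 {N : Type} [AddCommGroup N] [Module S N] (D : Derivation ℂ S S)
    (δ : N →+ N) (hδ : ∀ (s : S) (n : N), δ (s • n) = D s • n + s • δ n) (φ : Module.End S N)
    (hφ : φ ^ 4 = - algebraMap S (Module.End S N) gS) :
    del D δ hδ φ * φ ^ 3 + φ * del D δ hδ φ * φ ^ 2 + φ ^ 2 * del D δ hδ φ * φ +
      φ ^ 3 * del D δ hδ φ = - algebraMap S (Module.End S N) (D gS) := by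
  rw [← del_algebraMap D δ hδ, ← del_neg, ← hφ]
  have h2 : del D δ hδ (φ ^ 2) = del D δ hδ φ * φ + φ * del D δ hδ φ := by
    rw [pow_two, del_mul]
  have h4 : φ ^ 4 = φ ^ 2 * φ ^ 2 := by rw [← pow_add]
  rw [h4, del_mul, h2]
  noncomm_ring

theorem pderiv_gS (j : Fin 3) : MvPolynomial.pderiv j gS = 3 * (MvPolynomial.X j : S) ^ 2 := by
  unfold gS
  fin_cases j <;> simp [MvPolynomial.pderiv_X]

theorem aOp_apply {N : Type} [AddCommGroup N] [Module S N] (ζ : ℂ) (φ k : Module.End S N) :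
    aOp ζ φ k = (MvPolynomial.C ζ : S) • (φ * k) - k * φ := rfl

theorem bOp_apply {N : Type} [AddCommGroup N] [Module S N] (ζ : ℂ) (φ h : Module.End S N) :
    bOp ζ φ h = (MvPolynomial.C ζ : S) ^ 3 • (φ ^ 3 * h) +
      (MvPolynomial.C ζ : S) ^ 2 • (φ ^ 2 * (h * φ)) +
      (MvPolynomial.C ζ : S) • (φ * (h * φ ^ 2)) + h * φ ^ 3 := by
  unfold bOp
  simp [Finset.sum_range_succ]

theorem key_aux {M : Type} [AddCommGroup M] [Module S M] (z : S) (hz : z ^ 4 = 1)
    (fT3 fT2 fT1 T3f T2f T1f dU3 dU2 dU1 dU0 : M) (h2 : fT2 + dU2 = T3f) (h1 : fT1 + dU1 = T2f)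
    (h0 : dU0 = T1f) :
    z • (z ^ 3 • fT3 + z ^ 2 • fT2 + z • fT1) - (z ^ 3 • T3f + z ^ 2 • T2f + z • T1f) +
      z • (z ^ 3 • dU3 + z ^ 2 • dU2 + z • dU1 + dU0) = fT3 + dU3 := by
  have e4 : z * z ^ 3 = 1 := by rw [← hz]; ring
  have e3 : z * z ^ 2 = z ^ 3 := by ring
  have e2 : z * z = z ^ 2 := by ring
  rw [← h2, ← h1, ← h0]
  simp only [smul_add, smul_smul, e4, e3, e2, one_smul]
  abel

theorem key_identity {N : Type} [AddCommGroup N] [Module S N] (z : S) (hz : z ^ 4 = 1)
    (φ d h : Module.End S N) :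
    z • (φ * (z ^ 3 • ((d * φ ^ 2 + φ * d * φ + φ ^ 2 * d) * h) +
        z ^ 2 • ((d * φ + φ * d) * h * φ) + z • (d * h * φ ^ 2))) -
      (z ^ 3 • ((d * φ ^ 2 + φ * d * φ + φ ^ 2 * d) * h) +
        z ^ 2 • ((d * φ + φ * d) * h * φ) + z • (d * h * φ ^ 2)) * φ +
      z • (d * (z ^ 3 • (φ ^ 3 * h) + z ^ 2 • (φ ^ 2 * (h * φ)) + z • (φ * (h * φ ^ 2)) +
        h * φ ^ 3)) =
      (d * φ ^ 3 + φ * d * φ ^ 2 + φ ^ 2 * d * φ + φ ^ 3 * d) * h := by
  simp only [mul_add φ, add_mul _ _ φ, mul_add d, mul_smul_comm, smul_mul_assoc]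
  rw [key_aux z hz]
  · noncomm_ring
  · noncomm_ring
  · noncomm_ring
  · noncomm_ring

/-- ANN: the cohomology of the complex `a, b` is killed by the partial derivatives -/
theorem ann : AnnStatement := by
  intro N _ _ _ _ φ hφ ζ hζ h hh j
  obtain ⟨δ, hδ⟩ := conn N (MvPolynomial.pderiv j)
  set d := del (MvPolynomial.pderiv j) δ hδ φ with hd
  have hz : (MvPolynomial.C ζ : S) ^ 4 = 1 := by
    rw [← map_pow, hζ, map_one]
  have h1 := key_identity (MvPolynomial.C ζ : S) hz φ d h
  have h2 := del_pow4 (MvPolynomial.pderiv j) δ hδ φ hφ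
  rw [← hd, pderiv_gS] at h2
  rw [h2] at h1
  rw [bOp_apply] at hh
  rw [hh, mul_zero, smul_zero, add_zero] at h1
  set k0 := (MvPolynomial.C ζ : S) ^ 3 • ((d * φ ^ 2 + φ * d * φ + φ ^ 2 * d) * h) +
        (MvPolynomial.C ζ : S) ^ 2 • ((d * φ + φ * d) * h * φ) +
          (MvPolynomial.C ζ : S) • (d * h * φ ^ 2) with hk0
  refine ⟨(MvPolynomial.C (-1 / 3 : ℂ) : S) • k0, ?_⟩
  rw [map_smul, aOp_apply, h1]
  rw [neg_mul, smul_neg, ← neg_smul, ← Algebra.smul_def, smul_smul]
  congr 1
  have h3 : (3 : S) = MvPolynomial.C (3 : ℂ) := (map_ofNat _ 3).symm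
  rw [h3, ← map_neg, ← mul_assoc, ← map_mul]
  norm_num

end Pool.Agent.H66DE
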