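import Pool.Agent.Helper19_DE.FLOW

/-!
# CORE: rigid implies stably trivial
-/

noncomputable section

namespace Pool.Agent.H66DE

namespace Core19

variable {N : Type} [AddCommGroup N] [Module S N]

theorem smul_mem_map {E : Type} [AddCommGroup E] [Module S E] (I : Ideal S) (F : E →ₗ[S] E)
    {x : E} (hx : x ∈ I • (⊤ : Submodule S E)) : F x ∈ I • (⊤ : Submodule S E) := by
  have h1 : Submodule.map F (I • (⊤ : Submodule S E)) ≤ I • (⊤ : Submodule S E) := by
    rw [Submodule.map_smul'']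
    exact Submodule.smul_mono le_rfl le_top
  exact h1 (Submodule.mem_map_of_mem hx)

theorem mul_left_mem (I : Ideal S) (y : Module.End S N) {x : Module.End S N}
    (hx : x ∈ I • (⊤ : Submodule S (Module.End S N))) :
    y * x ∈ I • (⊤ : Submodule S (Module.End S N)) :=
  smul_mem_map I (LinearMap.mulLeft S y) hx

theorem mul_right_mem (I : Ideal S) (y : Module.End S N) {x : Module.End S N}
    (hx : x ∈ I • (⊤ : Submodule S (Module.End S N))) :
    x * y ∈ I • (⊤ : Submodule S (Module.End S N)) :=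
  smul_mem_map I (LinearMap.mulRight S y) hx

/-- endomorphisms with values in `I N` -/
theorem end_mem [Module.Finite S N] [Module.Projective S N] (I : Ideal S) (f : Module.End S N)
    (hf : ∀ n, f n ∈ I • (⊤ : Submodule S N)) :
    f ∈ I • (⊤ : Submodule S (Module.End S N)) := by
  obtain ⟨r, p, i, -, -, hpi⟩ := Module.Finite.exists_comp_eq_id_of_projective S N
  have hn : ∀ n, p (i n) = n := fun n => DFunLike.congr_fun hpi n
  have h1 : f = ∑ j : Fin r, ((LinearMap.proj j).comp i).smulRight (f (p (Pi.single j 1))) := by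
    ext n
    rw [LinearMap.sum_apply]
    simp only [LinearMap.smulRight_apply, LinearMap.comp_apply, LinearMap.proj_apply]
    have h0 : f n = f (p (∑ j, Pi.single j (i n j))) := by
      rw [Finset.univ_sum_single, hn]
    rw [h0, map_sum, map_sum]
    refine Finset.sum_congr rfl fun j _ => ?_
    have h2 : (Pi.single j (i n j) : Fin r → S) = i n j • (Pi.single j (1 : S)) := by
      rw [← Pi.single_smul, smul_eq_mul, mul_one]
    rw [h2, map_smul, map_smul]
  have h2 : ∀ (x : N →ₗ[S] S) (m : N), m ∈ I • (⊤ : Submodule S N) →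
      x.smulRight m ∈ I • (⊤ : Submodule S (Module.End S N)) := by
    intro x m hm
    induction hm using Submodule.smul_induction_on' with
    | smul s hs m _ =>
      have h3 : x.smulRight (s • m) = s • x.smulRight m := by
        ext n
        simp only [LinearMap.smulRight_apply, LinearMap.smul_apply]
        rw [smul_comm]
      rw [h3]
      exact Submodule.smul_mem_smul hs trivial
    | add a _ b _ ha hb =>
      have h3 : x.smulRight (a + b) = x.smulRight a + x.smulRight b := by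
        ext n
        simp only [LinearMap.smulRight_apply, LinearMap.add_apply, smul_add]
      rw [h3]
      exact Submodule.add_mem _ ha hb
  rw [h1]
  exact Submodule.sum_mem _ fun j _ => h2 _ _ (hf _)

theorem eulerD_gS : eulerD gS = 3 * gS := by
  unfold gS
  simp only [map_add, Derivation.leibniz_pow, Flow19.eulerD_X, smul_eq_mul, nsmul_eq_mul]
  push_cast
  ring

/-- the Euler derivation lifts if `φ` is rigid -/
theorem lift_euler [Module.Projective S N] (φ : Module.End S N)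
    (hφ : φ ^ 4 = - algebraMap S (Module.End S N) gS)
    (hr : ∀ h : Module.End S N, bOp 1 φ h = 0 → ∃ k, aOp 1 φ k = h) :
    ∃ nabla : N →+ N, (∀ (s : S) (n : N), nabla (s • n) = eulerD s • n + s • nabla n) ∧
      ∀ n : N, nabla (φ n) = φ (nabla n) + (MvPolynomial.C (3 / 4 : ℂ) : S) • φ n := by
  obtain ⟨δ, hδ⟩ := conn N eulerD
  set d := del eulerD δ hδ φ with hd
  have h1 := del_pow4 eulerD δ hδ φ hφ
  rw [← hd, eulerD_gS] at h1
  have h2 : bOp 1 φ (d - (MvPolynomial.C (3 / 4 : ℂ) : S) • φ) = 0 := by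
    rw [map_sub, map_smul, bOp_apply, bOp_apply, map_one]
    simp only [one_pow, one_smul]
    have h3 : φ ^ 3 * φ + φ ^ 2 * (φ * φ) + φ * (φ * φ ^ 2) + φ * φ ^ 3 = (4 : S) • φ ^ 4 := by
      have e : (4 : S) • φ ^ 4 = φ ^ 4 + φ ^ 4 + φ ^ 4 + φ ^ 4 := by
        have : (4 : S) = 1 + 1 + 1 + 1 := by norm_num
        rw [this]
        simp only [add_smul, one_smul]
      rw [e]
      noncomm_ring
    have h4 : φ ^ 3 * d + φ ^ 2 * (d * φ) + φ * (d * φ ^ 2) + d * φ ^ 3 =
        -(algebraMap S (Module.End S N)) (3 * gS) := by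
      rw [← h1]
      noncomm_ring
    have h5 : (MvPolynomial.C (3 / 4 : ℂ) : S) * 4 * gS = 3 * gS := by
      have h6 : (4 : S) = MvPolynomial.C (4 : ℂ) := (map_ofNat _ 4).symm
      have h7 : (3 : S) = MvPolynomial.C (3 : ℂ) := (map_ofNat _ 3).symm
      rw [h6, h7, ← map_mul]
      norm_num
    rw [h3, h4, hφ, smul_smul, smul_neg, Algebra.smul_def, ← map_mul, h5, sub_self]
  obtain ⟨A, hA⟩ := hr _ h2
  rw [aOp_apply, map_one, one_smul] at hA
  have hA' : ∀ n, φ (A n) - A (φ n) = (δ (φ n) - φ (δ n)) -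
      (MvPolynomial.C (3 / 4 : ℂ) : S) • φ n := fun n => DFunLike.congr_fun hA n
  refine ⟨δ + A.toAddMonoidHom, ?_, ?_⟩
  · intro s n
    change δ (s • n) + A (s • n) = eulerD s • n + s • (δ n + A n)
    rw [hδ, map_smul, smul_add]
    abel
  · intro n
    change δ (φ n) + A (φ n) = φ (δ n + A n) + (MvPolynomial.C (3 / 4 : ℂ) : S) • φ n
    rw [map_add]
    have := hA' n
    rw [sub_eq_iff_eq_add] at this
    rw [this]
    abel

/-- the product of three of the operators -/
theorem prod_eq (φ : Module.End S N) (ζ1 ζ2 ζ3 ζ : ℂ) (h1 : ζ1 + ζ2 + ζ3 = -ζ)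
    (h2 : ζ1 * ζ2 + ζ1 * ζ3 + ζ2 * ζ3 = ζ ^ 2) (h3 : ζ1 * ζ2 * ζ3 = -ζ ^ 3)
    (u : Module.End S N) : aOp ζ1 φ (aOp ζ2 φ (aOp ζ3 φ u)) = - bOp ζ φ u := by
  have e1 : (MvPolynomial.C ζ1 : S) + MvPolynomial.C ζ2 + MvPolynomial.C ζ3 =
      - MvPolynomial.C ζ := by
    rw [← map_add, ← map_add, h1, map_neg]
  have e2 : (MvPolynomial.C ζ1 : S) * MvPolynomial.C ζ2 + MvPolynomial.C ζ1 * MvPolynomial.C ζ3 +
      MvPolynomial.C ζ2 * MvPolynomial.C ζ3 = (MvPolynomial.C ζ) ^ 2 := by
    rw [← map_mul, ← map_mul, ← map_mul, ← map_add, ← map_add, h2, map_pow]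
  have e3 : (MvPolynomial.C ζ1 : S) * MvPolynomial.C ζ2 * MvPolynomial.C ζ3 =
      - (MvPolynomial.C ζ) ^ 3 := by
    rw [← map_mul, ← map_mul, h3, map_neg, map_pow]
  rw [bOp_apply]
  simp only [aOp_apply]
  set z1 : S := MvPolynomial.C ζ1
  set z2 : S := MvPolynomial.C ζ2
  set z3 : S := MvPolynomial.C ζ3
  set z : S := MvPolynomial.C ζ
  have c3 : φ ^ 3 * u = φ * (φ * (φ * u)) := by noncomm_ring
  have c2 : φ ^ 2 * (u * φ) = φ * (φ * (u * φ)) := by noncomm_ring
  have c1 : φ * (u * φ ^ 2) = φ * (u * φ * φ) := by noncomm_ring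
  have c0 : u * φ ^ 3 = u * φ * φ * φ := by noncomm_ring
  have d2 : φ * (φ * u) * φ = φ * (φ * (u * φ)) := by noncomm_ring
  have d1 : φ * (u * φ) * φ = φ * (u * φ * φ) := by noncomm_ring
  have d0 : φ * u * φ = φ * (u * φ) := by noncomm_ring
  rw [c3, c2, c1, c0]
  simp only [mul_sub, sub_mul, mul_smul_comm, smul_mul_assoc, d2, d0, d1]
  linear_combination (norm := module) e3 • (φ * (φ * (φ * u))) - e2 • (φ * (φ * (u * φ))) +
    e1 • (φ * (u * φ * φ))

/-- the twisted commutation relations modulo an ideal -/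
theorem comm_pow (I : Ideal S) (z : S) (φ t : Module.End S N)
    (h : φ * t - z • (t * φ) ∈ I • (⊤ : Submodule S (Module.End S N))) : ∀ m : ℕ,
    φ ^ m * t - z ^ m • (t * φ ^ m) ∈ I • (⊤ : Submodule S (Module.End S N))
  | 0 => by simp
  | m + 1 => by
    have ih := comm_pow I z φ t h m
    have e : φ ^ (m + 1) * t - z ^ (m + 1) • (t * φ ^ (m + 1)) =
        φ * (φ ^ m * t - z ^ m • (t * φ ^ m)) + z ^ m • ((φ * t - z • (t * φ)) * φ ^ m) := by
      rw [pow_succ' φ m, pow_succ z m]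
      simp only [mul_sub, sub_mul, smul_sub, mul_smul_comm, smul_mul_assoc, smul_smul, mul_assoc]
      abel
    rw [e]
    exact Submodule.add_mem _ (mul_left_mem I φ ih)
      (Submodule.smul_mem _ _ (mul_right_mem I _ h))

/-- exactness for all fourth roots of unity -/
theorem exact2 [Module.Finite S N] [Module.Projective S N] (φ : Module.End S N)
    (hφ : φ ^ 4 = - algebraMap S (Module.End S N) gS)
    (hr : ∀ h : Module.End S N, bOp 1 φ h = 0 → ∃ k, aOp 1 φ k = h) (ζ : ℂ) (hζ : ζ ^ 4 = 1)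
    (h : Module.End S N) (hh : bOp ζ φ h = 0) : ∃ k, aOp ζ φ k = h := by
  obtain ⟨nabla, hn1, hn2⟩ := lift_euler φ hφ hr
  have hfin : Module.Finite S (Module.End S N) := inferInstance
  set A : Submodule S (Module.End S N) := LinearMap.range (aOp ζ φ) with hA
  suffices hmem : A.mkQ h = 0 by
    have := (Submodule.Quotient.mk_eq_zero A).1 hmem
    exact this
  have hinf : A.mkQ h ∈ (⨅ i : ℕ, n0 ^ i • ⊤ : Submodule S (Module.End S N ⧸ A)) := by
    rw [Submodule.mem_iInf]
    intro i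
    set B : Submodule S (Module.End S N) := LinearMap.range (bOp 1 φ) with hB
    obtain ⟨c, hc⟩ := Ideal.exists_pow_inf_eq_pow_smul n0 B
    have hK := hc (i + c) (by omega)
    rw [Nat.add_sub_cancel] at hK
    obtain ⟨t, t', ht, htt', ht't⟩ := flow N φ nabla hn1 hn2 ζ hζ (i + c)
    set J : Submodule S (Module.End S N) := n0 ^ (i + c) • ⊤ with hJ
    set z : S := MvPolynomial.C ζ with hz
    have f1 : t * φ - z • (φ * t) ∈ J := end_mem _ _ ht
    have f2 : t * t' - 1 ∈ J := end_mem _ _ htt'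
    have f3 : t' * t - 1 ∈ J := end_mem _ _ ht't
    have f4 : φ * t' - z • (t' * φ) ∈ J := by
      have e : φ * t' - z • (t' * φ) = t' * (t * φ - z • (φ * t)) * t' -
          (t' * t - 1) * (φ * t') + z • (t' * φ * (t * t' - 1)) := by
        simp only [mul_sub, sub_mul, smul_sub, mul_smul_comm, smul_mul_assoc, mul_one, one_mul,
          mul_assoc]
        abel
      rw [e]
      exact Submodule.add_mem _ (Submodule.sub_mem _ (mul_right_mem _ _ (mul_left_mem _ _ f1))
        (mul_right_mem _ _ f3)) (Submodule.smul_mem _ _ (mul_left_mem _ _ f2))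
    have g := comm_pow _ z φ t' f4
    have f5 : bOp 1 φ (t' * h) ∈ J := by
      have e : bOp 1 φ (t' * h) = t' * bOp ζ φ h +
          ((φ ^ 3 * t' - z ^ 3 • (t' * φ ^ 3)) * h + (φ ^ 2 * t' - z ^ 2 • (t' * φ ^ 2)) * (h * φ) +
            (φ ^ 1 * t' - z ^ 1 • (t' * φ ^ 1)) * (h * φ ^ 2)) := by
        rw [bOp_apply, bOp_apply, ← hz]
        simp only [map_one, one_pow, one_smul, pow_one, mul_add, sub_mul, mul_smul_comm,
          smul_mul_assoc, mul_assoc]
        abel
      rw [e, hh, mul_zero, zero_add]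
      exact Submodule.add_mem _ (Submodule.add_mem _ (mul_right_mem _ _ (g 3))
        (mul_right_mem _ _ (g 2))) (mul_right_mem _ _ (g 1))
    have f6 : bOp 1 φ (t' * h) ∈ Submodule.map (bOp 1 φ) (n0 ^ i • ⊤) := by
      rw [Submodule.map_smul'', Submodule.map_top, ← hB]
      have h7 : bOp 1 φ (t' * h) ∈ n0 ^ i • (n0 ^ c • ⊤ ⊓ B) := by
        rw [← hK]
        exact ⟨f5, ⟨_, rfl⟩⟩
      exact Submodule.smul_mono le_rfl inf_le_right h7
    obtain ⟨h2, hh2, hh2'⟩ := f6
    obtain ⟨k, hk⟩ := hr (t' * h - h2) (by rw [map_sub, hh2', sub_self])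
    rw [aOp_apply, map_one, one_smul] at hk
    have f7 : h - (t * h2 + aOp ζ φ (t * k)) ∈ J := by
      have e : h - (t * h2 + aOp ζ φ (t * k)) = (t * φ - z • (φ * t)) * k - (t * t' - 1) * h := by
        have e2 : t * (φ * k - k * φ) = t * (t' * h - h2) := by rw [hk]
        rw [aOp_apply, ← hz]
        simp only [mul_sub] at e2
        simp only [sub_mul, smul_mul_assoc, one_mul, mul_assoc]
        have e3 : t * (φ * k) = t * (k * φ) + (t * (t' * h) - t * h2) := by
          rw [← e2]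
          abel
        rw [e3]
        abel
      rw [e]
      exact Submodule.sub_mem _ (mul_right_mem _ _ f1) (mul_right_mem _ _ f2)
    have hJi : J ≤ n0 ^ i • ⊤ := Submodule.smul_mono (Ideal.pow_le_pow_right (by omega)) le_rfl
    have f8 : h - aOp ζ φ (t * k) ∈ (n0 ^ i • ⊤ : Submodule S (Module.End S N)) := by
      have e : h - aOp ζ φ (t * k) = (h - (t * h2 + aOp ζ φ (t * k))) + t * h2 := by abel
      rw [e]
      exact Submodule.add_mem _ (hJi f7) (mul_left_mem _ _ hh2)
    have f9 : A.mkQ h = A.mkQ (h - aOp ζ φ (t * k)) := by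
      rw [map_sub]
      have : A.mkQ (aOp ζ φ (t * k)) = 0 := (Submodule.Quotient.mk_eq_zero A).2 ⟨_, rfl⟩
      rw [this, sub_zero]
    rw [f9]
    have f10 : Submodule.map A.mkQ (n0 ^ i • ⊤) ≤ n0 ^ i • ⊤ := by
      rw [Submodule.map_smul'']
      exact Submodule.smul_mono le_rfl le_top
    exact f10 (Submodule.mem_map_of_mem f8)
  rw [Ideal.mem_iInf_smul_pow_eq_bot_iff] at hinf
  obtain ⟨⟨r, hr0⟩, hrx⟩ := hinf
  simp only at hrx
  -- the annihilator
  let An : Ideal S := LinearMap.ker (LinearMap.toSpanSingleton S (Module.End S N ⧸ A) (A.mkQ h))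
  have hAn : ∀ s, s ∈ An ↔ s • A.mkQ h = 0 := fun s => by
    rw [LinearMap.mem_ker, LinearMap.toSpanSingleton_apply]
  have hX : ∀ j : Fin 3, (MvPolynomial.X j : S) ^ 2 ∈ An := by
    intro j
    obtain ⟨k, hk⟩ := ann N φ hφ ζ hζ h hh j
    rw [hAn, ← map_smul, ← hk]
    exact (Submodule.Quotient.mk_eq_zero A).2 ⟨_, rfl⟩
  have hrad : n0 ≤ An.radical := by
    unfold n0
    rw [Ideal.span_le]
    rintro _ ⟨j, rfl⟩
    exact ⟨2, hX j⟩
  obtain ⟨m, hm⟩ := hrad hr0
  rw [hAn] at hm
  have hpow : ∀ m : ℕ, r ^ m • A.mkQ h = A.mkQ h := by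
    intro m
    induction m with
    | zero => simp
    | succ m ih => rw [pow_succ, mul_smul, hrx, ih]
  rw [← hpow m, hm]

end Core19

open Core19 in
/-- CORE -/
theorem core : CoreStatement := by
  intro N _ _ _ _ φ hφ hr
  have hI2 : Complex.I ^ 2 = -1 := Complex.I_sq
  have hI4 : Complex.I ^ 4 = 1 := Complex.I_pow_four
  have hI4' : (-Complex.I) ^ 4 = 1 := by
    rw [Even.neg_pow ⟨2, rfl⟩, hI4]
  have hI3 : Complex.I ^ 3 = -Complex.I := Complex.I_pow_three
  have a1 : aOp 1 φ 1 = 0 := by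
    rw [aOp_apply, map_one, one_smul, mul_one, one_mul, sub_self]
  have b1 : bOp Complex.I φ 1 = 0 := by
    have h1 := prod_eq φ (-1) (-Complex.I) 1 Complex.I (by ring) (by rw [hI2]; ring)
      (by rw [hI3]; ring) (1 : Module.End S N)
    rw [a1, map_zero, map_zero] at h1
    exact (neg_eq_zero.1 h1.symm)
  obtain ⟨u1, hu1⟩ := exact2 φ hφ hr Complex.I hI4 1 b1
  have b2 : bOp (-1) φ u1 = 0 := by
    have h1 := prod_eq φ (-Complex.I) 1 Complex.I (-1) (by ring)
      (by linear_combination -hI2)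
      (by linear_combination -hI2) u1
    rw [hu1, a1, map_zero] at h1
    exact (neg_eq_zero.1 h1.symm)
  obtain ⟨u2, hu2⟩ := exact2 φ hφ hr (-1) (by norm_num) u1 b2
  have b3 : bOp (-Complex.I) φ u2 = 0 := by
    have h1 := prod_eq φ 1 Complex.I (-1) (-Complex.I) (by ring)
      (by linear_combination -hI2)
      (by linear_combination -hI3) u2
    rw [hu2, hu1, a1] at h1
    exact (neg_eq_zero.1 h1.symm)
  obtain ⟨u3, hu3⟩ := exact2 φ hφ hr (-Complex.I) hI4' u2 b3
  refine ⟨-u3, ?_⟩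
  have h1 := prod_eq φ Complex.I (-1) (-Complex.I) 1 (by ring)
      (by linear_combination -hI2)
      (by linear_combination hI2) u3
  rw [hu3, hu2, hu1] at h1
  rw [map_neg, ← h1]

end Pool.Agent.H66DE
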