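import Pool.Agent.Helper19_DE.CONN

/-!
# FLOW: the Euler derivation integrates to an isomorphism `(N, φ) ≅ (N, ζ φ)` modulo powers
-/

noncomputable section

namespace Pool.Agent.H66DE

namespace Flow19

section LinAlg

variable {V : Type} [AddCommGroup V] [Module ℂ V]

theorem shift (f g : Module.End ℂ V) (c : ℂ) (h : ∀ v, f (g v) = g (f v) + c • g v) (α : ℂ)
    (v : V) (hv : v ∈ f.maxGenEigenspace α) : g v ∈ f.maxGenEigenspace (α + c) := by
  rw [Module.End.mem_maxGenEigenspace] at hv ⊢
  obtain ⟨k, hk⟩ := hv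
  refine ⟨k, ?_⟩
  have key : ∀ (k : ℕ) (v : V), ((f - (α + c) • (1 : Module.End ℂ V)) ^ k) (g v) =
      g (((f - α • (1 : Module.End ℂ V)) ^ k) v) := by
    intro k
    induction k with
    | zero => intro v; rfl
    | succ k ih =>
      intro v
      rw [pow_succ, pow_succ, Module.End.mul_apply, Module.End.mul_apply, ← ih]
      congr 1
      change f (g v) - (α + c) • g v = g (f v - α • v)
      rw [map_sub, map_smul, h, add_smul]
      abel
  rw [key, hk, map_zero]

variable [FiniteDimensional ℂ V]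

theorem ext_gen (f : Module.End ℂ V) {g h : V →ₗ[ℂ] V}
    (H : ∀ α, ∀ v ∈ f.maxGenEigenspace α, g v = h v) (v : V) : g v = h v := by
  have h1 : (⊤ : Submodule ℂ V) ≤ LinearMap.eqLocus g h := by
    rw [← Module.End.iSup_maxGenEigenspace_eq_top f]
    exact iSup_le fun α v hv => H α v hv
  exact h1 (Submodule.mem_top (x := v))

open scoped DirectSum in
theorem eigen_fun (f : Module.End ℂ V) (χ : ℂ → ℂ) :
    ∃ θ : V →ₗ[ℂ] V, ∀ α, ∀ v ∈ f.maxGenEigenspace α, θ v = χ α • v := by
  classical
  have hint : DirectSum.IsInternal f.maxGenEigenspace :=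
    DirectSum.isInternal_submodule_of_iSupIndep_of_iSup_eq_top
      f.independent_maxGenEigenspace (Module.End.iSup_maxGenEigenspace_eq_top f)
  let e : (⨁ α, f.maxGenEigenspace α) ≃ₗ[ℂ] V :=
    LinearEquiv.ofBijective (DirectSum.coeLinearMap f.maxGenEigenspace) hint
  refine ⟨(DirectSum.toModule ℂ ℂ V fun α => χ α • (f.maxGenEigenspace α).subtype) ∘ₗ
    e.symm.toLinearMap, ?_⟩
  intro α v hv
  have h1 : e (DirectSum.lof ℂ ℂ (fun α => f.maxGenEigenspace α) α ⟨v, hv⟩) = v := by
    change DirectSum.coeLinearMap f.maxGenEigenspace _ = v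
    rw [DirectSum.coeLinearMap_lof]
  have h2 : e.symm v = DirectSum.lof ℂ ℂ (fun α => f.maxGenEigenspace α) α ⟨v, hv⟩ := by
    rw [LinearEquiv.symm_apply_eq, h1]
  rw [LinearMap.comp_apply]
  have h3 : e.symm.toLinearMap v = e.symm v := rfl
  rw [h3, h2, DirectSum.toModule_lof]
  rfl

end LinAlg

/-- the character -/
def chi (m : ℤ) (α : ℂ) : ℂ := Complex.exp (2 * Real.pi * Complex.I * m * α)

theorem chi_add_one (m : ℤ) (α : ℂ) : chi m (α + 1) = chi m α := by
  unfold chi
  rw [mul_add, mul_one, Complex.exp_add]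
  have h : Complex.exp (2 * Real.pi * Complex.I * m) = 1 := by
    rw [mul_comm]
    exact Complex.exp_int_mul_two_pi_mul_I m
  rw [h, mul_one]

theorem chi_add (m : ℤ) (α β : ℂ) : chi m (α + β) = chi m β * chi m α := by
  unfold chi
  rw [mul_add, Complex.exp_add, mul_comm]

theorem chi_neg (m : ℤ) (α : ℂ) : chi m α * chi (-m) α = 1 := by
  unfold chi
  rw [← Complex.exp_add]
  have h : (2 * Real.pi * Complex.I * m * α + 2 * Real.pi * Complex.I * ((-m : ℤ) : ℂ) * α : ℂ) =
      0 := by
    push_cast
    ring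
  rw [h, Complex.exp_zero]

section VV

variable {V : Type} [AddCommGroup V] [Module S V] [Module ℂ V] [IsScalarTower ℂ S V]

theorem C_smul' (c : ℂ) (v : V) : (MvPolynomial.C c : S) • v = c • v := by
  have h : (MvPolynomial.C c : S) = c • (1 : S) := by
    rw [MvPolynomial.smul_eq_C_mul, mul_one]
  rw [h, smul_assoc, one_smul]

theorem eulerD_X (j : Fin 3) : eulerD (MvPolynomial.X j : S) = MvPolynomial.X j := by
  unfold eulerD
  rw [Fin.sum_univ_three]
  simp only [Derivation.add_apply, Derivation.smul_apply, smul_eq_mul]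
  fin_cases j <;> simp [MvPolynomial.pderiv_X]

/-- the flow -/
theorem flowV [FiniteDimensional ℂ V] (φ : Module.End S V) (D : V →+ V)
    (hD : ∀ (s : S) (v : V), D (s • v) = eulerD s • v + s • D v)
    (hφ : ∀ v : V, D (φ v) = φ (D v) + (MvPolynomial.C (3 / 4 : ℂ) : S) • φ v) (m : ℤ) :
    ∃ θ θ' : Module.End S V, θ * θ' = 1 ∧ θ' * θ = 1 ∧
      ∀ v, θ (φ v) = (MvPolynomial.C (chi m (3 / 4)) : S) • φ (θ v) := by
  let f : Module.End ℂ V :=
    { toFun := D
      map_add' := map_add D
      map_smul' := by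
        intro c v
        rw [← C_smul', hD]
        have h : eulerD (MvPolynomial.C c : S) = 0 := by
          exact Derivation.map_algebraMap eulerD c
        rw [h, zero_smul, zero_add, C_smul', RingHom.id_apply] }
  have key : ∀ m : ℤ, ∃ θ : Module.End S V, ∀ α, ∀ v ∈ f.maxGenEigenspace α,
      θ v = chi m α • v := by
    intro m
    obtain ⟨θ, hθ⟩ := eigen_fun f (chi m)
    have hX : ∀ (j : Fin 3) (v : V), θ ((MvPolynomial.X j : S) • v) =
        (MvPolynomial.X j : S) • θ v := by
      intro j
      let g : Module.End ℂ V :=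
        { toFun := fun v => (MvPolynomial.X j : S) • v
          map_add' := fun a b => smul_add _ a b
          map_smul' := fun c v => by
            rw [← C_smul', ← C_smul', smul_smul, smul_smul, mul_comm, RingHom.id_apply] }
      have hg : ∀ v, f (g v) = g (f v) + (1 : ℂ) • g v := by
        intro v
        change D ((MvPolynomial.X j : S) • v) = (MvPolynomial.X j : S) • D v +
          (1 : ℂ) • ((MvPolynomial.X j : S) • v)
        rw [hD, eulerD_X, one_smul, add_comm]
      intro v
      exact ext_gen f (g := θ ∘ₗ g) (h := g ∘ₗ θ) (by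
        intro α v hv
        rw [LinearMap.comp_apply, LinearMap.comp_apply, hθ _ _ (shift f g 1 hg α v hv),
          hθ _ _ hv, chi_add_one, map_smul]) v
    have hS : ∀ (s : S) (v : V), θ (s • v) = s • θ v := by
      intro s
      induction s using MvPolynomial.induction_on with
      | C c => intro v; rw [C_smul', C_smul', map_smul]
      | add p q hp hq => intro v; rw [add_smul, add_smul, map_add, hp, hq]
      | mul_X p j hp => intro v; rw [mul_smul, mul_smul, hp, hX]
    exact ⟨{ toFun := θ, map_add' := map_add θ, map_smul' := hS }, hθ⟩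
  obtain ⟨θ, hθ⟩ := key m
  obtain ⟨θ', hθ'⟩ := key (-m)
  have lin : ∀ h : Module.End S V, ∃ h' : Module.End ℂ V, ∀ v, h' v = h v := fun h =>
    ⟨{ toFun := h, map_add' := map_add h, map_smul' := fun c v => by
        rw [← C_smul', map_smul, C_smul', RingHom.id_apply] }, fun _ => rfl⟩
  obtain ⟨t, ht⟩ := lin θ
  obtain ⟨t', ht'⟩ := lin θ'
  obtain ⟨p, hp⟩ := lin φ
  have hp' : ∀ v, f (p v) = p (f v) + (3 / 4 : ℂ) • p v := by
    intro v
    rw [hp, hp]
    change D (φ v) = φ (D v) + _
    rw [hφ, C_smul']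
  refine ⟨θ, θ', ?_, ?_, ?_⟩
  · ext v
    have := ext_gen f (g := t ∘ₗ t') (h := LinearMap.id) (by
      intro α v hv
      rw [LinearMap.comp_apply, ht', hθ' _ _ hv, map_smul, ht, hθ _ _ hv, smul_smul, mul_comm,
        chi_neg, one_smul]
      rfl) v
    rw [LinearMap.comp_apply, ht, ht'] at this
    exact this
  · ext v
    have := ext_gen f (g := t' ∘ₗ t) (h := LinearMap.id) (by
      intro α v hv
      rw [LinearMap.comp_apply, ht, hθ _ _ hv, map_smul, ht', hθ' _ _ hv, smul_smul,
        chi_neg, one_smul]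
      rfl) v
    rw [LinearMap.comp_apply, ht, ht'] at this
    exact this
  · intro v
    have := ext_gen f (g := t ∘ₗ p) (h := chi m (3 / 4) • (p ∘ₗ t)) (by
      intro α v hv
      have h1 := shift f p (3 / 4) hp' α v hv
      rw [LinearMap.comp_apply, ht, hθ _ _ h1, LinearMap.smul_apply, LinearMap.comp_apply, ht,
        hθ _ _ hv, map_smul, smul_smul, chi_add]) v
    rw [LinearMap.comp_apply, LinearMap.smul_apply, LinearMap.comp_apply, hp, ht, hp, ht] at this
    rw [this, C_smul']

end VV

/-- a finite module killed by a power of the maximal ideal has finite dimension -/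
theorem finDim {V : Type} [AddCommGroup V] [Module S V] [Module ℂ V] [IsScalarTower ℂ S V]
    [hV : Module.Finite S V] (k : ℕ) (hk : ∀ s ∈ n0 ^ k, ∀ v : V, s • v = 0) :
    FiniteDimensional ℂ V := by
  obtain ⟨G, hG⟩ := hV.fg_top
  have hfin : {x : Fin 3 →₀ ℕ | x.degree ≤ k}.Finite := Finsupp.finite_of_degree_le k
  set T : Set V := Set.image2 (fun (x : Fin 3 →₀ ℕ) (g : V) => (MvPolynomial.monomial x (1 : ℂ) : S) • g)
    {x : Fin 3 →₀ ℕ | x.degree ≤ k} (G : Set V) with hT
  have hTfin : T.Finite := hfin.image2 _ G.finite_toSet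
  refine Module.finite_def.2 ?_
  have htop : Submodule.span ℂ T = ⊤ := by
    rw [eq_top_iff]
    intro v _
    have hv : v ∈ Submodule.span S (G : Set V) := by rw [hG]; trivial
    have hmon : ∀ (x : Fin 3 →₀ ℕ), ∀ g ∈ (G : Set V),
        (MvPolynomial.monomial x (1 : ℂ) : S) • g ∈ Submodule.span ℂ T := by
      intro x g hg
      by_cases hx : x.degree ≤ k
      · exact Submodule.subset_span ⟨x, hx, g, hg, rfl⟩
      · have h1 : (MvPolynomial.monomial x (1 : ℂ) : S) ∈ n0 ^ k := by
          have := (MvPolynomial.monomial_mem_pow_idealOfVars_iff (σ := Fin 3) (R := ℂ) k x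
            (one_ne_zero)).2 (by omega)
          exact this
        rw [hk _ h1]
        exact Submodule.zero_mem _
    have hall : ∀ (s : S), ∀ g ∈ (G : Set V), s • g ∈ Submodule.span ℂ T := by
      intro s g hg
      rw [MvPolynomial.as_sum s, Finset.sum_smul]
      refine Submodule.sum_mem _ fun x _ => ?_
      have h2 : (MvPolynomial.monomial x (MvPolynomial.coeff x s) : S) =
          MvPolynomial.coeff x s • (MvPolynomial.monomial x (1 : ℂ) : S) := by
        rw [MvPolynomial.smul_monomial, smul_eq_mul, mul_one]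
      rw [h2, smul_assoc]
      exact Submodule.smul_mem _ _ (hmon x g hg)
    induction hv using Submodule.span_induction with
    | mem g hg =>
      have := hall 1 g hg
      rwa [one_smul] at this
    | zero => exact Submodule.zero_mem _
    | add a b _ _ ha hb => exact Submodule.add_mem _ (ha trivial) (hb trivial)
    | smul s a ha' ha =>
      clear ha
      induction ha' using Submodule.span_induction generalizing s with
      | mem g hg => exact hall s g hg
      | zero => rw [smul_zero]; exact Submodule.zero_mem _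
      | add a b _ _ ha hb => rw [smul_add]; exact Submodule.add_mem _ (ha s trivial) (hb s trivial)
      | smul t a _ ha => rw [smul_smul]; exact ha _ trivial
  rw [← htop]
  exact Submodule.fg_span hTfin

theorem eulerD_n0 (k : ℕ) (s : S) (hs : s ∈ n0 ^ k) : eulerD s ∈ n0 ^ k := by
  induction k generalizing s with
  | zero => simp
  | succ k ih =>
    rw [pow_succ] at hs ⊢
    induction hs using Submodule.mul_induction_on' with
    | mem_mul_mem a ha b hb =>
      rw [Derivation.leibniz, smul_eq_mul, smul_eq_mul]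
      refine Ideal.add_mem _ (Ideal.mul_mem_mul ha ?_) ?_
      · unfold n0 at hb ⊢
        induction hb using Submodule.span_induction with
        | mem x hx =>
          obtain ⟨j, rfl⟩ := hx
          simp only
          rw [eulerD_X]
          exact Ideal.subset_span ⟨j, rfl⟩
        | zero => rw [map_zero]; exact Ideal.zero_mem _
        | add x y _ _ hx hy => rw [map_add]; exact Ideal.add_mem _ hx hy
        | smul t x hx' hx =>
          rw [smul_eq_mul, Derivation.leibniz, smul_eq_mul, smul_eq_mul]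
          exact Ideal.add_mem _ (Ideal.mul_mem_left _ _ hx) (Ideal.mul_mem_right _ _ hx')
      · rw [mul_comm b]
        exact Ideal.mul_mem_mul (ih a ha) hb
    | add a ha b hb iha ihb => rw [map_add]; exact Ideal.add_mem _ iha ihb

theorem exists_chi (ζ : ℂ) (hζ : ζ ^ 4 = 1) : ∃ m : ℤ, chi m (3 / 4) = ζ := by
  have h := (Complex.isPrimitiveRoot_exp 4 (by norm_num)).eq_pow_of_pow_eq_one hζ
  obtain ⟨i, -, hi⟩ := h
  refine ⟨-(i : ℤ), ?_⟩
  rw [← hi, ← Complex.exp_nat_mul]
  unfold chi
  have h2 : (2 * Real.pi * Complex.I * ((-(i : ℤ) : ℤ) : ℂ) * (3 / 4) : ℂ) =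
      (i : ℂ) * (2 * Real.pi * Complex.I / (4 : ℕ)) + ((-(i : ℤ) : ℤ) : ℂ) * (2 * Real.pi * Complex.I) := by
    push_cast
    ring
  rw [h2, Complex.exp_add, Complex.exp_int_mul_two_pi_mul_I, mul_one]

end Flow19

open Flow19 in
/-- FLOW -/
theorem flow : FlowStatement := by
  intro N _ _ _ _ φ nabla hn hφ ζ hζ k
  obtain ⟨m, hm⟩ := exists_chi ζ hζ
  set P : Submodule S N := (n0 ^ k) • (⊤ : Submodule S N) with hP
  let _ : Module ℂ (N ⧸ P) := Module.compHom (N ⧸ P) (algebraMap ℂ S)
  have _ : IsScalarTower ℂ S (N ⧸ P) := ⟨fun c s v => by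
    rw [Algebra.smul_def, mul_smul]
    rfl⟩
  have _ : FiniteDimensional ℂ (N ⧸ P) := finDim k (by
    intro s hs v
    obtain ⟨n, rfl⟩ := P.mkQ_surjective v
    rw [← map_smul]
    exact (Submodule.Quotient.mk_eq_zero P).2 (Submodule.smul_mem_smul hs trivial))
  -- `φ` on the quotient
  have hφP : P ≤ P.comap φ := by
    rw [hP, Submodule.smul_le]
    intro s hs n _
    rw [Submodule.mem_comap, map_smul]
    exact Submodule.smul_mem_smul hs trivial
  let φV : Module.End S (N ⧸ P) := P.mapQ P φ hφP
  have hφV : ∀ n, φV (P.mkQ n) = P.mkQ (φ n) := fun n => rfl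
  -- `nabla` on the quotient
  have hnP : ∀ n ∈ P, nabla n ∈ P := by
    intro n hn'
    rw [hP] at hn'
    induction hn' using Submodule.smul_induction_on' with
    | smul s hs n _ =>
      rw [hn]
      exact Submodule.add_mem _ (Submodule.smul_mem_smul (eulerD_n0 k s hs) trivial)
        (Submodule.smul_mem_smul hs trivial)
    | add a _ b _ ha hb => rw [map_add]; exact Submodule.add_mem _ ha hb
  let D : (N ⧸ P) →+ (N ⧸ P) := QuotientAddGroup.map P.toAddSubgroup P.toAddSubgroup nabla
    (fun n hn' => hnP n hn')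
  have hDm : ∀ n, D (P.mkQ n) = P.mkQ (nabla n) := fun n => rfl
  obtain ⟨θ, θ', h1, h2, h3⟩ := flowV φV D (by
      intro s v
      obtain ⟨n, rfl⟩ := P.mkQ_surjective v
      rw [← map_smul, hDm, hn, map_add, map_smul, map_smul, hDm])
    (by
      intro v
      obtain ⟨n, rfl⟩ := P.mkQ_surjective v
      rw [hφV, hDm, hφ, map_add, map_smul, hDm, hφV]) m
  obtain ⟨t, ht⟩ := Module.projective_lifting_property P.mkQ (θ ∘ₗ P.mkQ) P.mkQ_surjective
  obtain ⟨t', ht'⟩ := Module.projective_lifting_property P.mkQ (θ' ∘ₗ P.mkQ) P.mkQ_surjective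
  have ht1 : ∀ n, P.mkQ (t n) = θ (P.mkQ n) := fun n => DFunLike.congr_fun ht n
  have ht1' : ∀ n, P.mkQ (t' n) = θ' (P.mkQ n) := fun n => DFunLike.congr_fun ht' n
  have hker : ∀ n, P.mkQ n = 0 → n ∈ P := fun n h => (Submodule.Quotient.mk_eq_zero P).1 h
  refine ⟨t, t', ?_, ?_, ?_⟩
  · intro n
    apply hker
    rw [LinearMap.sub_apply, map_sub, Module.End.mul_apply, LinearMap.smul_apply, map_smul,
      Module.End.mul_apply, ht1, ← hφV, h3, ← hφV, ht1, hm, sub_self]
  · intro n
    apply hker
    rw [LinearMap.sub_apply, map_sub, Module.End.mul_apply, ht1, ht1', ← Module.End.mul_apply, h1]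
    simp
  · intro n
    apply hker
    rw [LinearMap.sub_apply, map_sub, Module.End.mul_apply, ht1', ht1, ← Module.End.mul_apply, h2]
    simp

end Pool.Agent.H66DE
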